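import Mathlib

set_option autoImplicit false

namespace Pool.Agent.D0H4.Holes

/-- `B` is (the block set of) a simple `t`-`(v,k,lam)` design on the point set `Fin v`:
every block is a `k`-subset and every `t`-subset of points lies in exactly `lam` blocks. -/
def IsDesign (t v k lam : ℕ) (B : Finset (Finset (Fin v))) : Prop :=
  (∀ b ∈ B, b.card = k) ∧
    ∀ T : Finset (Fin v), T.card = t → (B.filter (fun b => T ⊆ b)).card = lam

/-- `S` is a defining set of the `t`-`(v,k,lam)` design `D`: a set of blocks of `D` such that `D`
is the only `t`-`(v,k,lam)` design whose block set contains `S`. -/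
def IsDefiningSet (t v k lam : ℕ) (D S : Finset (Finset (Fin v))) : Prop :=
  S ⊆ D ∧ ∀ D' : Finset (Finset (Fin v)), IsDesign t v k lam D' → S ⊆ D' → D' = D

/-- `S` is a minimal defining set of `D`: no proper subset of `S` is a defining set of `D`. -/
def IsMinimalDefiningSet (t v k lam : ℕ) (D S : Finset (Finset (Fin v))) : Prop :=
  IsDefiningSet t v k lam D S ∧ ∀ S' : Finset (Finset (Fin v)), S' ⊂ S →
    ¬ IsDefiningSet t v k lam D S'

/-- The spectrum of `D`: the set of sizes of the minimal defining sets of `D`. -/
def Spec (t v k lam : ℕ) (D : Finset (Finset (Fin v))) : Set ℕ :=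
  {m | ∃ S : Finset (Finset (Fin v)), IsMinimalDefiningSet t v k lam D S ∧ S.card = m}

/-- A set of natural numbers has a hole if it is not an interval of consecutive integers. -/
def HasHole (A : Set ℕ) : Prop :=
  ∃ a ∈ A, ∃ c ∈ A, ∃ m, a < m ∧ m < c ∧ m ∉ A

end Pool.Agent.D0H4.Holes
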