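import Pool.Agent.D0H4.Holes.Defs
import Pool.Agent.D0H4.Holes.Data

set_option autoImplicit false

namespace Pool.Agent.D0H4.Holes

/-- the `i`-th triple -/
def tri (i : Fin 35) : Finset (Fin 7) := trips.getD i ∅

theorem tri_inj : Function.Injective tri := by
  intro i j h
  revert i j
  decide +kernel

theorem tri_card (i : Fin 35) : (tri i).card = 3 := by
  revert i
  decide +kernel

theorem tri_surj (b : Finset (Fin 7)) (hb : b.card = 3) : ∃ i, tri i = b := by
  have h1 : (Finset.univ.image tri) ⊆ Finset.powersetCard 3 (Finset.univ : Finset (Fin 7)) := by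
    intro x hx
    obtain ⟨i, _, rfl⟩ := Finset.mem_image.1 hx
    rw [Finset.mem_powersetCard]
    exact ⟨Finset.subset_univ _, tri_card i⟩
  have h2 : Finset.univ.image tri = Finset.powersetCard 3 (Finset.univ : Finset (Fin 7)) := by
    apply Finset.eq_of_subset_of_card_le h1
    rw [Finset.card_image_of_injective _ tri_inj, Finset.card_powersetCard]
    simp [Nat.choose]
  have h3 : b ∈ Finset.univ.image tri := by
    rw [h2, Finset.mem_powersetCard]; exact ⟨Finset.subset_univ _, hb⟩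
  obtain ⟨i, _, hi⟩ := Finset.mem_image.1 h3
  exact ⟨i, hi⟩

/-- the family of triples not in the mask `m` -/
def fam (m : ℕ) : Finset (Finset (Fin 7)) :=
  (Finset.univ.filter (fun i : Fin 35 => m.testBit i = false)).image tri

theorem mem_fam {m : ℕ} {i : Fin 35} : tri i ∈ fam m ↔ m.testBit i = false := by
  unfold fam
  rw [Finset.mem_image]
  constructor
  · rintro ⟨j, hj, hji⟩
    rw [tri_inj hji] at hj
    exact (Finset.mem_filter.1 hj).2
  · intro h
    exact ⟨i, Finset.mem_filter.2 ⟨Finset.mem_univ _, h⟩, rfl⟩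

/-- counting the blocks of a family of triples containing `T` -/
theorem count_eq (B : Finset (Finset (Fin 7))) (hB : ∀ b ∈ B, b.card = 3)
    (T : Finset (Fin 7)) :
    (B.filter (fun b => T ⊆ b)).card =
      (Finset.univ.filter (fun i : Fin 35 => tri i ∈ B ∧ T ⊆ tri i)).card := by
  rw [← Finset.card_image_of_injective
    (Finset.univ.filter (fun i : Fin 35 => tri i ∈ B ∧ T ⊆ tri i)) tri_inj]
  congr 1
  ext b
  rw [Finset.mem_filter, Finset.mem_image]
  constructor
  · rintro ⟨hb, hT⟩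
    obtain ⟨i, rfl⟩ := tri_surj b (hB b hb)
    exact ⟨i, Finset.mem_filter.2 ⟨Finset.mem_univ _, hb, hT⟩, rfl⟩
  · rintro ⟨i, hi, rfl⟩
    exact (Finset.mem_filter.1 hi).2

theorem fam_card {m : ℕ} : ∀ b ∈ fam m, b.card = 3 := by
  intro b hb
  unfold fam at hb
  obtain ⟨i, _, rfl⟩ := Finset.mem_image.1 hb
  exact tri_card i

/-- all Fano planes as masks -/
def sols : List ℕ := fano :: hypM

theorem five_triples : ∀ x y : Fin 7, x ≠ y →
    (Finset.univ.filter (fun i : Fin 35 => {x, y} ⊆ tri i)).card = 5 := by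
  decide +kernel

theorem sols_count : ∀ m ∈ sols, ∀ x y : Fin 7, x ≠ y →
    (Finset.univ.filter (fun i : Fin 35 => m.testBit i = false ∧ {x, y} ⊆ tri i)).card = 4 := by
  decide +kernel

theorem fam_isDesign {m : ℕ} (hm : m ∈ sols) : IsDesign 2 7 3 4 (fam m) := by
  refine ⟨fam_card, ?_⟩
  intro T hT
  obtain ⟨x, y, hxy, rfl⟩ := Finset.card_eq_two.1 hT
  rw [count_eq _ fam_card]
  rw [← sols_count m hm x y hxy]
  congr 1
  ext i
  rw [Finset.mem_filter, Finset.mem_filter, mem_fam]

/-- the constraints encode the pairs -/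
theorem constr_pair : ∀ c ∈ constr, ∃ x y : Fin 7, x ≠ y ∧ ∀ i : Fin 35,
    (c.1.testBit i = true ↔ {x, y} ⊆ tri i) := by
  decide +kernel

theorem constr_conf : ∀ c ∈ constr, ∀ i : Fin 35, c.1.testBit i = true →
    ∃ xc ∈ c.2, xc.1 = 2 ^ (i : ℕ) ∧ ∀ j : Fin 35, xc.2.testBit j = true →
      ∃ c' ∈ constr, c'.1.testBit i = true ∧ c'.1.testBit j = true := by
  decide +kernel

theorem constr_cover : ∀ i : Fin 35, ∃ c ∈ constr, c.1.testBit i = true := by
  decide +kernel

theorem hyp_ne : ∀ m ∈ hypM, ∃ i : Fin 35, m.testBit i = false ∧ fano.testBit i = true := by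
  decide +kernel

/-- in a `2`-`(7,3,4)` design every pair lies in exactly one triple that is not a block -/
theorem unique_missing {B : Finset (Finset (Fin 7))} (hB : IsDesign 2 7 3 4 B) {x y : Fin 7}
    (hxy : x ≠ y) :
    (Finset.univ.filter (fun i : Fin 35 => tri i ∉ B ∧ {x, y} ⊆ tri i)).card = 1 := by
  have h4 : (Finset.univ.filter (fun i : Fin 35 => tri i ∈ B ∧ {x, y} ⊆ tri i)).card = 4 := by
    rw [← count_eq B hB.1 {x, y}]
    exact hB.2 _ (Finset.card_pair hxy)
  have h5 := five_triples x y hxy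
  have hsplit : (Finset.univ.filter (fun i : Fin 35 => {x, y} ⊆ tri i)).card =
      (Finset.univ.filter (fun i : Fin 35 => tri i ∈ B ∧ {x, y} ⊆ tri i)).card +
      (Finset.univ.filter (fun i : Fin 35 => tri i ∉ B ∧ {x, y} ⊆ tri i)).card := by
    rw [← Finset.card_union_of_disjoint]
    · congr 1
      ext i
      simp only [Finset.mem_filter, Finset.mem_univ, true_and, Finset.mem_union]
      tauto
    · rw [Finset.disjoint_left]
      intro i h1 h2
      exact (Finset.mem_filter.1 h2).2.1 (Finset.mem_filter.1 h1).2.1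
  omega

theorem missing_unique {B : Finset (Finset (Fin 7))} (hB : IsDesign 2 7 3 4 B) {x y : Fin 7}
    (hxy : x ≠ y) {i j : Fin 35} (hi : tri i ∉ B) (hj : tri j ∉ B) (hi' : {x, y} ⊆ tri i)
    (hj' : {x, y} ⊆ tri j) : i = j := by
  have := unique_missing hB hxy
  rw [Finset.card_eq_one] at this
  obtain ⟨a, ha⟩ := this
  have h1 : i ∈ ({a} : Finset (Fin 35)) := by
    rw [← ha]; exact Finset.mem_filter.2 ⟨Finset.mem_univ _, hi, hi'⟩
  have h2 : j ∈ ({a} : Finset (Fin 35)) := by
    rw [← ha]; exact Finset.mem_filter.2 ⟨Finset.mem_univ _, hj, hj'⟩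
  rw [Finset.mem_singleton] at h1 h2
  rw [h1, h2]

/-- The `2`-`(7,3,4)` designs are exactly the 30 complements of Fano planes. -/
theorem design_enum {B : Finset (Finset (Fin 7))} (hB : IsDesign 2 7 3 4 B) :
    ∃ m ∈ sols, B = fam m := by
  classical
  set Q : Finset ℕ := (Finset.univ.filter (fun i : Fin 35 => tri i ∉ B)).image
    (fun i : Fin 35 => (i : ℕ)) with hQ
  have hQmem : ∀ i : Fin 35, ((i : ℕ) ∈ Q ↔ tri i ∉ B) := by
    intro i
    rw [hQ, Finset.mem_image]
    constructor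
    · rintro ⟨j, hj, hji⟩
      have : j = i := Fin.ext hji
      subst this
      exact (Finset.mem_filter.1 hj).2
    · intro h
      exact ⟨i, Finset.mem_filter.2 ⟨Finset.mem_univ _, h⟩, rfl⟩
  have hQval : ∀ n ∈ Q, ∃ i : Fin 35, (i : ℕ) = n ∧ tri i ∉ B := by
    intro n hn
    rw [hQ, Finset.mem_image] at hn
    obtain ⟨j, hj, hji⟩ := hn
    exact ⟨j, hji, (Finset.mem_filter.1 hj).2⟩
  have hc : ∀ c ∈ constr, ∃ i ∈ Q, c.1.testBit i = true ∧ ∃ f, (2 ^ i, f) ∈ c.2 ∧
      ∀ j ∈ Q, j ≠ i → f.testBit j = false := by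
    intro c hcc
    obtain ⟨x, y, hxy, hcx⟩ := constr_pair c hcc
    have h1 := unique_missing hB hxy
    obtain ⟨i, hi⟩ := Finset.card_pos.1 (by rw [h1]; norm_num)
    have hi2 := (Finset.mem_filter.1 hi).2
    have hti := (hcx i).2 hi2.2
    obtain ⟨xc, hxc, hx1, hx2⟩ := constr_conf c hcc i hti
    refine ⟨i, (hQmem i).2 hi2.1, hti, xc.2, ?_, ?_⟩
    · rw [← hx1]; exact hxc
    · intro j hj hji
      obtain ⟨j', rfl, hj'⟩ := hQval j hj
      cases hb : xc.2.testBit j'
      · rfl
      · exfalso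
        obtain ⟨c', hc', k1, k2⟩ := hx2 j' hb
        obtain ⟨x', y', hxy', hcx'⟩ := constr_pair c' hc'
        have := missing_unique hB hxy' hi2.1 hj' ((hcx' i).1 k1) ((hcx' j').1 k2)
        exact hji (by rw [this])
  obtain ⟨m, J, hm, _, hJQ, hmJ, hcJ⟩ := exs_sound (sols := sols) (Q := Q) constr 0 ∅
    (by intro i; simp) (Finset.empty_subset _) hc exs_ok
  have hJ : ∀ i : Fin 35, (m.testBit i = true ↔ tri i ∉ B) := by
    intro i
    rw [hmJ i]
    constructor
    · intro h
      exact (hQmem i).1 (hJQ h)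
    · intro h
      obtain ⟨c, hcc, hci⟩ := constr_cover i
      obtain ⟨j, hjJ, hjc⟩ := hcJ c hcc
      obtain ⟨j', rfl, hj'⟩ := hQval j (hJQ hjJ)
      obtain ⟨x, y, hxy, hcx⟩ := constr_pair c hcc
      rw [missing_unique hB hxy h hj' ((hcx i).1 hci) ((hcx j').1 hjc)]
      exact hjJ
  refine ⟨m, hm, ?_⟩
  ext b
  constructor
  · intro hb
    obtain ⟨i, rfl⟩ := tri_surj b (hB.1 b hb)
    rw [mem_fam]
    cases hc : m.testBit i
    · rfl
    · exact absurd hb ((hJ i).1 hc)
  · intro hb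
    obtain ⟨i, rfl⟩ := tri_surj b (fam_card b hb)
    rw [mem_fam] at hb
    by_contra hcon
    rw [(hJ i).2 hcon] at hb
    exact absurd hb (by simp)

/-- indices of the triples in `S` -/
def ind (S : Finset (Finset (Fin 7))) : Finset ℕ :=
  (Finset.univ.filter (fun i : Fin 35 => tri i ∈ S)).image (fun i : Fin 35 => (i : ℕ))

theorem mem_ind {S : Finset (Finset (Fin 7))} {n : ℕ} :
    n ∈ ind S ↔ ∃ i : Fin 35, (i : ℕ) = n ∧ tri i ∈ S := by
  unfold ind
  rw [Finset.mem_image]
  constructor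
  · rintro ⟨i, hi, h⟩
    exact ⟨i, h, (Finset.mem_filter.1 hi).2⟩
  · rintro ⟨i, h, hi⟩
    exact ⟨i, Finset.mem_filter.2 ⟨Finset.mem_univ _, hi⟩, h⟩

theorem mem_ind' {S : Finset (Finset (Fin 7))} {i : Fin 35} :
    (i : ℕ) ∈ ind S ↔ tri i ∈ S := by
  rw [mem_ind]
  constructor
  · rintro ⟨j, hj, h⟩
    rw [← Fin.ext hj]; exact h
  · intro h; exact ⟨i, rfl, h⟩

theorem card_ind {S : Finset (Finset (Fin 7))} (hS : ∀ b ∈ S, b.card = 3) :
    (ind S).card = S.card := by
  unfold ind
  rw [Finset.card_image_of_injective _ Fin.val_injective,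
    ← Finset.card_image_of_injective _ tri_inj]
  congr 1
  ext b
  rw [Finset.mem_image]
  constructor
  · rintro ⟨i, hi, rfl⟩
    exact (Finset.mem_filter.1 hi).2
  · intro hb
    obtain ⟨i, rfl⟩ := tri_surj b (hS b hb)
    exact ⟨i, Finset.mem_filter.2 ⟨Finset.mem_univ _, hb⟩, rfl⟩

theorem subset_fam_iff {S : Finset (Finset (Fin 7))} (hS : ∀ b ∈ S, b.card = 3) {m : ℕ} :
    S ⊆ fam m ↔ ∀ n ∈ ind S, m.testBit n = false := by
  constructor
  · intro h n hn
    obtain ⟨i, rfl, hi⟩ := mem_ind.1 hn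
    exact mem_fam.1 (h hi)
  · intro h b hb
    obtain ⟨i, rfl⟩ := tri_surj b (hS b hb)
    exact mem_fam.2 (h i (mem_ind'.2 hb))

theorem defining_iff (S : Finset (Finset (Fin 7))) :
    IsDefiningSet 2 7 3 4 (fam fano) S ↔
      S ⊆ fam fano ∧ ∀ m ∈ hypM, ∃ n ∈ ind S, m.testBit n = true := by
  constructor
  · rintro ⟨hS, h⟩
    refine ⟨hS, ?_⟩
    intro m hm
    by_contra hcon
    push Not at hcon
    have h1 : S ⊆ fam m := by
      rw [subset_fam_iff (fun b hb => fam_card b (hS hb))]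
      intro n hn
      have := hcon n hn
      simpa using this
    have h2 := h (fam m) (fam_isDesign (List.mem_cons_of_mem _ hm)) h1
    obtain ⟨i, hi1, hi2⟩ := hyp_ne m hm
    have h3 : tri i ∈ fam fano := by rw [← h2]; exact mem_fam.2 hi1
    rw [mem_fam, hi2] at h3
    exact absurd h3 (by simp)
  · rintro ⟨hS, h⟩
    refine ⟨hS, ?_⟩
    intro D' hD' hSD
    obtain ⟨m, hm, rfl⟩ := design_enum hD'
    rcases List.mem_cons.1 hm with rfl | hm
    · rfl
    · exfalso
      obtain ⟨n, hn, hmn⟩ := h m hm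
      rw [subset_fam_iff (fun b hb => fam_card b (hS hb))] at hSD
      rw [hSD n hn] at hmn
      exact absurd hmn (by simp)

theorem minTrans_of_minimal {S : Finset (Finset (Fin 7))}
    (h : IsMinimalDefiningSet 2 7 3 4 (fam fano) S) : IsMinTrans hypM (ind S) := by
  classical
  have hd := (defining_iff S).1 h.1
  refine ⟨hd.2, ?_⟩
  intro s hs
  obtain ⟨i, rfl, hi⟩ := mem_ind.1 hs
  have hne := h.2 (S.erase (tri i)) (Finset.erase_ssubset hi)
  rw [defining_iff] at hne
  push Not at hne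
  obtain ⟨m, hm, hm'⟩ := hne ((Finset.erase_subset _ _).trans hd.1)
  have key : ∀ n ∈ ind S, m.testBit n = true → n = i := by
    intro n hn hmn
    by_contra hni
    obtain ⟨j, rfl, hj⟩ := mem_ind.1 hn
    have : (j : ℕ) ∈ ind (S.erase (tri i)) := by
      rw [mem_ind', Finset.mem_erase]
      refine ⟨?_, hj⟩
      intro hji
      exact hni (by rw [tri_inj hji])
    exact hm' j this hmn
  obtain ⟨n, hn, hmn⟩ := hd.2 m hm
  have := key n hn hmn
  subst this
  exact ⟨m, hm, hmn, key⟩

theorem minimal_of_minTrans {S : Finset (Finset (Fin 7))} (hS : S ⊆ fam fano)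
    (h : IsMinTrans hypM (ind S)) : IsMinimalDefiningSet 2 7 3 4 (fam fano) S := by
  refine ⟨(defining_iff S).2 ⟨hS, h.hit⟩, ?_⟩
  intro S' hS' hdef
  rw [defining_iff] at hdef
  obtain ⟨hsub, hns⟩ := hS'
  obtain ⟨b, hb, hb'⟩ : ∃ b ∈ S, b ∉ S' := by
    by_contra hcon
    push Not at hcon
    exact hns hcon
  obtain ⟨i, rfl⟩ := tri_surj b (fam_card b (hS hb))
  obtain ⟨m, hm, _, hpriv⟩ := h.priv i (mem_ind'.2 hb)
  obtain ⟨n, hn, hmn⟩ := hdef.2 m hm
  obtain ⟨j, rfl, hj⟩ := mem_ind.1 hn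
  have := hpriv j (mem_ind'.2 (hsub hj)) hmn
  rw [Fin.ext this] at hj
  exact hb' hj

theorem hyp_wf_elems : ∀ h ∈ hyp, ∀ x ∈ h.2, ∃ i ∈ List.range 35, x = 2 ^ i ∧
    h.1.testBit i = true := by
  decide +kernel

theorem hyp_wf_complete : ∀ h ∈ hyp, ∀ i ∈ List.range 35, h.1.testBit i = true →
    2 ^ i ∈ h.2 := by
  decide +kernel

theorem hyp_lt : ∀ h ∈ hyp, h.1 < 2 ^ 35 := by
  decide +kernel

theorem hyp_wf : IsWF hyp := by
  refine ⟨?_, ?_⟩
  · intro h hh x hx
    obtain ⟨i, _, h1, h2⟩ := hyp_wf_elems h hh x hx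
    exact ⟨i, h1, h2⟩
  · intro h hh i hi
    refine hyp_wf_complete h hh i ?_ hi
    rw [List.mem_range]
    by_contra hcon
    push Not at hcon
    have : h.1.testBit i = false :=
      Nat.testBit_lt_two_pow (lt_of_lt_of_le (hyp_lt h hh) (Nat.pow_le_pow_right (by norm_num) hcon))
    rw [this] at hi
    exact absurd hi (by simp)

/-- sizes of minimal defining sets -/
theorem size_of_minimal {S : Finset (Finset (Fin 7))}
    (h : IsMinimalDefiningSet 2 7 3 4 (fam fano) S) :
    S.card ∈ ({7, 8, 9, 10, 13} : Set ℕ) := by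
  have hS : S ⊆ fam fano := h.1.1
  have hmt := minTrans_of_minimal h
  have hP : IsMinTrans (hyp.map Prod.fst) (ind S) := by rw [hypM_eq]; exact hmt
  have hexc : ∀ j ∈ ind S, fano.testBit j = false :=
    (subset_fam_iff (fun b hb => fam_card b (hS hb))).1 hS
  have hs := search_ok
  rw [← hypM_eq] at hs
  obtain ⟨m, hm, hcard⟩ := search_sound hyp_wf hP 14 0 fano ∅ (by intro i; simp)
    (Finset.empty_subset _) hexc hs
  rw [card_ind (fun b hb => fam_card b (hS hb)), Finset.card_empty] at hcard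
  have hm' : m = 0 ∨ m = 3 ∨ m = 4 ∨ m = 5 ∨ m = 6 := by
    unfold okSize at hm
    simp only [Bool.or_eq_true, Nat.beq_eq] at hm
    omega
  simp only [Set.mem_insert_iff, Set.mem_singleton_iff]
  omega

/-- the set of triples given by a mask -/
def fset (w : ℕ) : Finset (Finset (Fin 7)) :=
  (Finset.univ.filter (fun i : Fin 35 => w.testBit i = true)).image tri

theorem mem_fset {w : ℕ} {i : Fin 35} : tri i ∈ fset w ↔ w.testBit i = true := by
  unfold fset
  rw [Finset.mem_image]
  constructor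
  · rintro ⟨j, hj, hji⟩
    rw [tri_inj hji] at hj
    exact (Finset.mem_filter.1 hj).2
  · intro h
    exact ⟨i, Finset.mem_filter.2 ⟨Finset.mem_univ _, h⟩, rfl⟩

theorem fset_minimal {w : ℕ} (h0 : ∀ i : Fin 35, w.testBit i = true → fano.testBit i = false)
    (h1 : ∀ m ∈ hypM, ∃ i : Fin 35, w.testBit i = true ∧ m.testBit i = true)
    (h2 : ∀ s : Fin 35, w.testBit s = true → ∃ m ∈ hypM, m.testBit s = true ∧
      ∀ i : Fin 35, w.testBit i = true → m.testBit i = true → i = s) :
    IsMinimalDefiningSet 2 7 3 4 (fam fano) (fset w) := by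
  apply minimal_of_minTrans
  · intro b hb
    unfold fset at hb
    obtain ⟨i, hi, rfl⟩ := Finset.mem_image.1 hb
    exact mem_fam.2 (h0 i (Finset.mem_filter.1 hi).2)
  · refine ⟨?_, ?_⟩
    · intro m hm
      obtain ⟨i, hi, hmi⟩ := h1 m hm
      exact ⟨i, mem_ind'.2 (mem_fset.2 hi), hmi⟩
    · intro s hs
      obtain ⟨j, rfl, hj⟩ := mem_ind.1 hs
      obtain ⟨m, hm, hms, hpriv⟩ := h2 j (mem_fset.1 hj)
      refine ⟨m, hm, hms, ?_⟩
      intro n hn hmn
      obtain ⟨k, rfl, hk⟩ := mem_ind.1 hn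
      rw [hpriv k (mem_fset.1 hk) hmn]

theorem fset_card (w : ℕ) : (fset w).card =
    (Finset.univ.filter (fun i : Fin 35 => w.testBit i = true)).card := by
  unfold fset
  rw [Finset.card_image_of_injective _ tri_inj]

/-- The spectrum of the complement of the Fano plane. -/
theorem spec_eq : Spec 2 7 3 4 (fam fano) = {7, 8, 9, 10, 13} := by
  apply Set.Subset.antisymm
  · rintro n ⟨S, hS, rfl⟩
    exact size_of_minimal hS
  · intro n hn
    simp only [Set.mem_insert_iff, Set.mem_singleton_iff] at hn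
    rcases hn with rfl | rfl | rfl | rfl | rfl
    · exact ⟨fset 2100254, fset_minimal (by decide +kernel) (by decide +kernel)
        (by decide +kernel), by rw [fset_card]; decide +kernel⟩
    · exact ⟨fset 8592039046, fset_minimal (by decide +kernel) (by decide +kernel)
        (by decide +kernel), by rw [fset_card]; decide +kernel⟩
    · exact ⟨fset 2296974, fset_minimal (by decide +kernel) (by decide +kernel)
        (by decide +kernel), by rw [fset_card]; decide +kernel⟩
    · exact ⟨fset 18255875086, fset_minimal (by decide +kernel) (by decide +kernel)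
        (by decide +kernel), by rw [fset_card]; decide +kernel⟩
    · exact ⟨fset 18361363528, fset_minimal (by decide +kernel) (by decide +kernel)
        (by decide +kernel), by rw [fset_card]; decide +kernel⟩

end Pool.Agent.D0H4.Holes
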