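import Mathlib

/-!
# Kernel-friendly searches on bit masks

* `search`: enumerates the minimal transversals of a hypergraph whose hyperedges are bit masks.
* `exs`: enumerates exact hitting sets of a list of constraints.
-/

set_option autoImplicit false

namespace Pool.Agent.D0H4.Holes

/-- Boolean selection, reduced by the kernel through `Bool.rec` -/
noncomputable def sel {α : Type} (c : Bool) (t e : α) : α := @Bool.rec (fun _ => α) e t c

theorem sel_true {α : Type} (t e : α) : sel true t e = t := rfl

theorem sel_false {α : Type} (t e : α) : sel false t e = e := rfl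

/-- `x` is zero or a power of two. -/
def isP2 (x : ℕ) : Bool := Nat.beq (Nat.land x (Nat.sub x 1)) 0

/-- union of those `h ∩ inc` that have at most one element -/
noncomputable def singles (inc : ℕ) (l : List ℕ) : ℕ :=
  @List.rec ℕ (fun _ => ℕ) 0 (fun h _ ih =>
    sel (isP2 (Nat.land h inc)) (Nat.lor (Nat.land h inc) ih) ih) l

theorem singles_nil (inc : ℕ) : singles inc [] = 0 := rfl

theorem singles_cons (inc h : ℕ) (hs : List ℕ) : singles inc (h :: hs) =
    sel (isP2 (Nat.land h inc)) (Nat.lor (Nat.land h inc) (singles inc hs))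
      (singles inc hs) := rfl

/-- apply `f` to the elements of the first hyperedge disjoint from `inc`; `okn` if there is none -/
noncomputable def firstUnhit (okn : Bool) (f : List ℕ → Bool) (inc : ℕ)
    (l : List (ℕ × List ℕ)) : Bool :=
  @List.rec (ℕ × List ℕ) (fun _ => Bool) okn (fun h _ ih =>
    sel (Nat.beq (Nat.land h.1 inc) 0) (f h.2) ih) l

theorem firstUnhit_nil (okn : Bool) (f : List ℕ → Bool) (inc : ℕ) :
    firstUnhit okn f inc [] = okn := rfl

theorem firstUnhit_cons (okn : Bool) (f : List ℕ → Bool) (inc : ℕ) (h : ℕ × List ℕ)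
    (hs : List (ℕ × List ℕ)) : firstUnhit okn f inc (h :: hs) =
      sel (Nat.beq (Nat.land h.1 inc) 0) (f h.2) (firstUnhit okn f inc hs) := rfl

/-- branch over the elements of an unhit hyperedge -/
noncomputable def branch (rc : ℕ → ℕ → Bool) (Hm : List ℕ) (inc : ℕ) (l : List ℕ) : ℕ → Bool :=
  @List.rec ℕ (fun _ => ℕ → Bool) (fun _ => true) (fun x _ ih exc =>
    sel (Nat.beq (Nat.land exc x) 0)
      (sel (sel (Nat.beq (singles (Nat.lor inc x) Hm) (Nat.lor inc x))
          (rc (Nat.lor inc x) exc) true)
        (ih (Nat.lor exc x)) false)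
      (ih exc)) l

theorem branch_nil (rc : ℕ → ℕ → Bool) (Hm : List ℕ) (inc exc : ℕ) :
    branch rc Hm inc [] exc = true := rfl

theorem branch_cons (rc : ℕ → ℕ → Bool) (Hm : List ℕ) (inc x : ℕ) (xs : List ℕ) (exc : ℕ) :
    branch rc Hm inc (x :: xs) exc =
    sel (Nat.beq (Nat.land exc x) 0)
      (sel (sel (Nat.beq (singles (Nat.lor inc x) Hm) (Nat.lor inc x))
          (rc (Nat.lor inc x) exc) true)
        (branch rc Hm inc xs (Nat.lor exc x)) false)
      (branch rc Hm inc xs exc) := rfl

/-- the search for minimal transversals -/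
noncomputable def search (H : List (ℕ × List ℕ)) (Hm : List ℕ) (ok : ℕ → Bool) (n : ℕ) :
    ℕ → ℕ → Bool :=
  @Nat.rec (fun _ => ℕ → ℕ → Bool) (fun _ _ => false) (fun n rc inc exc =>
    firstUnhit (ok n) (fun xs => branch rc Hm inc xs exc) inc H) n

theorem search_zero (H : List (ℕ × List ℕ)) (Hm : List ℕ) (ok : ℕ → Bool) (inc exc : ℕ) :
    search H Hm ok 0 inc exc = false := rfl

theorem search_succ (H : List (ℕ × List ℕ)) (Hm : List ℕ) (ok : ℕ → Bool) (n inc exc : ℕ) :
    search H Hm ok (n + 1) inc exc =
      firstUnhit (ok n) (fun xs => branch (search H Hm ok n) Hm inc xs exc) inc H := rfl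

theorem isP2_two_pow (i : ℕ) : isP2 (2 ^ i) = true := by
  unfold isP2
  rw [Nat.beq_eq]
  show 2 ^ i &&& (2 ^ i - 1) = 0
  apply Nat.eq_of_testBit_eq
  intro j
  rw [Nat.testBit_and, Nat.testBit_two_pow, Nat.testBit_two_pow_sub_one]
  by_cases h : i = j
  · subst h; simp
  · simp [h]

theorem singles_testBit_of_mem {inc s : ℕ} {Hm : List ℕ}
    (h : ∃ h ∈ Hm, h &&& inc = 2 ^ s) : (singles inc Hm).testBit s = true := by
  induction Hm with
  | nil => obtain ⟨h, hh, _⟩ := h; simp at hh
  | cons a l ih =>
    obtain ⟨h, hh, he⟩ := h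
    rw [singles_cons]
    rcases List.mem_cons.1 hh with rfl | hl
    · have : isP2 (Nat.land h inc) = true := by
        have : Nat.land h inc = 2 ^ s := he
        rw [this]; exact isP2_two_pow s
      rw [this, sel_true]
      show (Nat.land h inc ||| singles inc l).testBit s = true
      rw [Nat.testBit_or]
      have : Nat.land h inc = 2 ^ s := he
      rw [this]; simp
    · have := ih ⟨h, hl, he⟩
      cases hb : isP2 (Nat.land a inc)
      · rw [sel_false]; exact this
      · rw [sel_true]
        show (Nat.land a inc ||| singles inc l).testBit s = true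
        rw [Nat.testBit_or, this]; simp

theorem singles_testBit_imp {inc s : ℕ} {Hm : List ℕ}
    (h : (singles inc Hm).testBit s = true) : inc.testBit s = true := by
  induction Hm with
  | nil => rw [singles_nil] at h; simp at h
  | cons a l ih =>
    rw [singles_cons] at h
    cases hb : isP2 (Nat.land a inc)
    · rw [hb, sel_false] at h; exact ih h
    · rw [hb, sel_true] at h
      have h' : (Nat.land a inc ||| singles inc l).testBit s = true := h
      rw [Nat.testBit_or, Bool.or_eq_true] at h'
      rcases h' with h' | h'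
      · have h'' : (a &&& inc).testBit s = true := h'
        rw [Nat.testBit_and, Bool.and_eq_true] at h''
        exact h''.2
      · exact ih h'

theorem singles_eq {inc : ℕ} {Hm : List ℕ}
    (h : ∀ s, inc.testBit s = true → ∃ h ∈ Hm, h &&& inc = 2 ^ s) : singles inc Hm = inc := by
  apply Nat.eq_of_testBit_eq
  intro s
  cases hb : inc.testBit s
  · cases hc : (singles inc Hm).testBit s
    · rfl
    · rw [singles_testBit_imp hc] at hb; exact absurd hb (by simp)
  · exact singles_testBit_of_mem (h s hb)

/-- `P` is a minimal transversal of the masks in `Hm`. -/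
structure IsMinTrans (Hm : List ℕ) (P : Finset ℕ) : Prop where
  hit : ∀ h ∈ Hm, ∃ i ∈ P, h.testBit i = true
  priv : ∀ s ∈ P, ∃ h ∈ Hm, h.testBit s = true ∧ ∀ i ∈ P, h.testBit i = true → i = s

/-- the list `H` of masks with their elements is consistent -/
structure IsWF (H : List (ℕ × List ℕ)) : Prop where
  elems : ∀ h ∈ H, ∀ x ∈ h.2, ∃ i, x = 2 ^ i ∧ h.1.testBit i = true
  complete : ∀ h ∈ H, ∀ i, h.1.testBit i = true → 2 ^ i ∈ h.2

theorem land_eq_zero_iff {a b : ℕ} :
    Nat.beq (Nat.land a b) 0 = true ↔ ∀ i, a.testBit i = true → b.testBit i = false := by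
  rw [Nat.beq_eq]
  constructor
  · intro h i ha
    have h' : (a &&& b).testBit i = (0 : ℕ).testBit i := by
      have : a &&& b = 0 := h
      rw [this]
    rw [Nat.testBit_and, ha, Nat.zero_testBit] at h'
    simpa using h'
  · intro h
    show a &&& b = 0
    apply Nat.eq_of_testBit_eq
    intro i
    rw [Nat.testBit_and, Nat.zero_testBit]
    cases ha : a.testBit i
    · simp
    · simp [h i ha]

theorem firstUnhit_spec {okn : Bool} {f : List ℕ → Bool} {inc : ℕ} {H : List (ℕ × List ℕ)}
    (h : firstUnhit okn f inc H = true) :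
    (okn = true ∧ ∀ g ∈ H, ∃ i, g.1.testBit i = true ∧ inc.testBit i = true) ∨
    (∃ g ∈ H, f g.2 = true ∧ ∀ i, g.1.testBit i = true → inc.testBit i = false) := by
  induction H with
  | nil =>
    rw [firstUnhit_nil] at h
    exact Or.inl ⟨h, by simp⟩
  | cons a l ih =>
    rw [firstUnhit_cons] at h
    cases hb : Nat.beq (Nat.land a.1 inc) 0
    · rw [hb, sel_false] at h
      rcases ih h with ⟨h1, h2⟩ | ⟨g, hg, h1, h2⟩
      · left
        refine ⟨h1, ?_⟩
        intro g hg
        rcases List.mem_cons.1 hg with rfl | hl
        · by_contra hcon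
          push Not at hcon
          have : Nat.beq (Nat.land g.1 inc) 0 = true := by
            rw [land_eq_zero_iff]
            intro i hi
            have := hcon i hi
            simpa using this
          rw [this] at hb; exact absurd hb (by simp)
        · exact h2 g hl
      · right
        exact ⟨g, List.mem_cons_of_mem _ hg, h1, h2⟩
    · rw [hb, sel_true] at h
      right
      exact ⟨a, List.mem_cons_self, h, land_eq_zero_iff.1 hb⟩

/-- soundness of the branching step -/
theorem branch_sound {rc : ℕ → ℕ → Bool} {Hm : List ℕ} {P : Finset ℕ} {inc : ℕ} {C : Prop}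
    (hP : IsMinTrans Hm P)
    (hinc : ∀ i, inc.testBit i = true → i ∈ P)
    (hrc : ∀ i ∈ P, inc.testBit i = false → ∀ exc, (∀ j ∈ P, exc.testBit j = false) →
      rc (inc ||| 2 ^ i) exc = true → C) :
    ∀ (xs : List ℕ) (exc : ℕ), (∀ x ∈ xs, ∃ i, x = 2 ^ i ∧ inc.testBit i = false) →
      (∀ j ∈ P, exc.testBit j = false) →
      (∃ i ∈ P, 2 ^ i ∈ xs) →
      branch rc Hm inc xs exc = true → C := by
  intro xs
  induction xs with
  | nil => intro exc _ _ h; obtain ⟨i, _, hi⟩ := h; simp at hi
  | cons x l ih =>
    intro exc hx hexc hex hb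
    obtain ⟨i, rfl, hii⟩ := hx x List.mem_cons_self
    rw [branch_cons] at hb
    by_cases hiP : i ∈ P
    · have h0 : Nat.beq (Nat.land exc (2 ^ i)) 0 = true := by
        rw [land_eq_zero_iff]
        intro j hj
        rw [Nat.testBit_two_pow]
        by_cases hij : i = j
        · subst hij; rw [hexc i hiP] at hj; exact absurd hj (by simp)
        · simp [hij]
      rw [h0, sel_true] at hb
      have hinc' : ∀ j, (inc ||| 2 ^ i).testBit j = true → j ∈ P := by
        intro j hj
        rw [Nat.testBit_or, Bool.or_eq_true] at hj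
        rcases hj with hj | hj
        · exact hinc j hj
        · rw [Nat.testBit_two_pow] at hj
          have : i = j := by simpa using hj
          rw [← this]; exact hiP
      have hs : singles (Nat.lor inc (2 ^ i)) Hm = Nat.lor inc (2 ^ i) := by
        apply singles_eq
        intro s hs
        have hsP : s ∈ P := hinc' s hs
        obtain ⟨h, hh, h1, h2⟩ := hP.priv s hsP
        refine ⟨h, hh, ?_⟩
        apply Nat.eq_of_testBit_eq
        intro j
        rw [Nat.testBit_and, Nat.testBit_two_pow]
        by_cases hsj : s = j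
        · subst hsj
          rw [h1]
          have : (Nat.lor inc (2 ^ i)).testBit s = true := hs
          rw [this]; simp
        · have : decide (s = j) = false := by simp [hsj]
          rw [this]
          cases hc : h.testBit j
          · simp
          · cases hd : (Nat.lor inc (2 ^ i)).testBit j
            · simp
            · exact absurd (h2 j (hinc' j hd) hc).symm hsj
      have h2 : Nat.beq (Nat.lor inc (2 ^ i)) (Nat.lor inc (2 ^ i)) = true := by
        rw [Nat.beq_eq]
      rw [hs, h2, sel_true] at hb
      have h1 : rc (Nat.lor inc (2 ^ i)) exc = true := by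
        cases hr : rc (Nat.lor inc (2 ^ i)) exc
        · rw [hr, sel_false] at hb; exact absurd hb (by simp)
        · rfl
      exact hrc i hiP hii exc hexc h1
    · have hex' : ∃ j ∈ P, 2 ^ j ∈ l := by
        obtain ⟨j, hj, hjx⟩ := hex
        rcases List.mem_cons.1 hjx with h | h
        · exfalso
          have : j = i := Nat.pow_right_injective (le_refl 2) h
          rw [this] at hj; exact hiP hj
        · exact ⟨j, hj, h⟩
      cases hb0 : Nat.beq (Nat.land exc (2 ^ i)) 0
      · rw [hb0, sel_false] at hb
        exact ih exc (fun y hy => hx y (List.mem_cons_of_mem _ hy)) hexc hex' hb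
      · rw [hb0, sel_true] at hb
        have hb2 : branch rc Hm inc l (Nat.lor exc (2 ^ i)) = true := by
          cases hr : sel (Nat.beq (singles (Nat.lor inc (2 ^ i)) Hm) (Nat.lor inc (2 ^ i)))
            (rc (Nat.lor inc (2 ^ i)) exc) true
          · rw [hr, sel_false] at hb; exact absurd hb (by simp)
          · rw [hr, sel_true] at hb; exact hb
        refine ih _ (fun y hy => hx y (List.mem_cons_of_mem _ hy)) ?_ hex' hb2
        intro j hj
        show (exc ||| 2 ^ i).testBit j = false
        rw [Nat.testBit_or, hexc j hj, Nat.testBit_two_pow]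
        have : i ≠ j := by rintro rfl; exact hiP hj
        simp [this]

/-- soundness of the search: the size of a minimal transversal is recorded by `ok` -/
theorem search_sound {H : List (ℕ × List ℕ)} (hWF : IsWF H) {ok : ℕ → Bool} {P : Finset ℕ}
    (hP : IsMinTrans (H.map Prod.fst) P) :
    ∀ (n inc exc : ℕ) (I : Finset ℕ), (∀ i, inc.testBit i = true ↔ i ∈ I) → I ⊆ P →
      (∀ j ∈ P, exc.testBit j = false) →
      search H (H.map Prod.fst) ok n inc exc = true →
      ∃ m, ok m = true ∧ P.card + m + 1 = I.card + n := by
  intro n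
  induction n with
  | zero => intro inc exc I _ _ _ h; rw [search_zero] at h; exact absurd h (by simp)
  | succ n ih =>
    intro inc exc I hI hIP hexc hs
    rw [search_succ] at hs
    rcases firstUnhit_spec hs with ⟨hok, hall⟩ | ⟨g, hg, hs, hg0⟩
    · have hPI : P = I := by
        apply Finset.Subset.antisymm _ hIP
        intro s hsP
        obtain ⟨h, hh, h1, h2⟩ := hP.priv s hsP
        obtain ⟨g, hg, rfl⟩ := List.mem_map.1 hh
        obtain ⟨i, hi1, hi2⟩ := hall g hg
        have hiI := (hI i).1 hi2
        rw [← h2 i (hIP hiI) hi1]; exact hiI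
      refine ⟨n, hok, ?_⟩
      rw [hPI]; ring
    · obtain ⟨i0, hi0P, hi0⟩ := hP.hit g.1 (List.mem_map.2 ⟨g, hg, rfl⟩)
      refine branch_sound (C := ∃ m, ok m = true ∧ P.card + m + 1 = I.card + (n + 1)) hP
        (fun i hi => hIP ((hI i).1 hi)) ?_ g.2 exc ?_ hexc ?_ hs
      · intro i hiP hii exc' hexc' hs'
        have hiI : i ∉ I := by
          intro h
          rw [(hI i).2 h] at hii; exact absurd hii (by simp)
        obtain ⟨m, hm1, hm2⟩ := ih (inc ||| 2 ^ i) exc' (insert i I) (by
          intro j
          rw [Nat.testBit_or, Bool.or_eq_true, hI j, Nat.testBit_two_pow, Finset.mem_insert]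
          constructor
          · rintro (h | h)
            · exact Or.inr h
            · left
              have : i = j := by simpa using h
              exact this.symm
          · rintro (h | h)
            · right; simp [h]
            · exact Or.inl h) (by
          intro j hj
          rcases Finset.mem_insert.1 hj with rfl | hj
          · exact hiP
          · exact hIP hj) hexc' hs'
        refine ⟨m, hm1, ?_⟩
        rw [hm2, Finset.card_insert_of_notMem hiI]; ring
      · intro x hx
        obtain ⟨i, hi1, hi2⟩ := hWF.elems g hg x hx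
        exact ⟨i, hi1, hg0 i hi2⟩
      · refine ⟨i0, hi0P, ?_⟩
        exact hWF.complete g hg i0 hi0

/-- enumeration of the exact hitting sets: all leaves lie in `sols` -/
def exs (sols : List ℕ) : List (ℕ × List (ℕ × ℕ)) → ℕ → Bool
  | [], inc => sols.any (fun m => Nat.beq m inc)
  | c :: cs, inc =>
      cond (Nat.beq (Nat.land c.1 inc) 0)
        (c.2.all (fun xc => cond (Nat.beq (Nat.land inc xc.2) 0)
          (exs sols cs (Nat.lor inc xc.1)) true))
        (exs sols cs inc)

theorem exs_sound {sols : List ℕ} {Q : Finset ℕ} :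
    ∀ (cs : List (ℕ × List (ℕ × ℕ))) (inc : ℕ) (I : Finset ℕ),
      (∀ i, inc.testBit i = true ↔ i ∈ I) → I ⊆ Q →
      (∀ c ∈ cs, ∃ i ∈ Q, c.1.testBit i = true ∧ ∃ f, (2 ^ i, f) ∈ c.2 ∧
        ∀ j ∈ Q, j ≠ i → f.testBit j = false) →
      exs sols cs inc = true →
      ∃ (m : ℕ) (J : Finset ℕ), m ∈ sols ∧ I ⊆ J ∧ J ⊆ Q ∧ (∀ i, m.testBit i = true ↔ i ∈ J) ∧
        ∀ c ∈ cs, ∃ i ∈ J, c.1.testBit i = true := by
  intro cs
  induction cs with
  | nil =>
    intro inc I hI hIQ _ hs
    rw [exs, List.any_eq_true] at hs
    obtain ⟨m, hm, he⟩ := hs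
    rw [Nat.beq_eq] at he
    subst he
    exact ⟨m, I, hm, Finset.Subset.refl _, hIQ, hI, by simp⟩
  | cons c cs ih =>
    intro inc I hI hIQ hc hs
    rw [exs] at hs
    cases hb : Nat.beq (Nat.land c.1 inc) 0
    · rw [hb, cond_false] at hs
      obtain ⟨m, J, h1, h2, h3, h4, h5⟩ := ih inc I hI hIQ
        (fun c' hc' => hc c' (List.mem_cons_of_mem _ hc')) hs
      refine ⟨m, J, h1, h2, h3, h4, ?_⟩
      intro c' hc'
      rcases List.mem_cons.1 hc' with rfl | hc'
      · by_contra hcon
        push Not at hcon
        have : Nat.beq (Nat.land c'.1 inc) 0 = true := by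
          rw [land_eq_zero_iff]
          intro i hi
          cases hd : inc.testBit i
          · rfl
          · exact absurd hi (hcon i (h2 ((hI i).1 hd)))
        rw [this] at hb; exact absurd hb (by simp)
      · exact h5 c' hc'
    · rw [hb, cond_true, List.all_eq_true] at hs
      obtain ⟨i, hiQ, hci, f, hf, hconf⟩ := hc c List.mem_cons_self
      have hiI : i ∉ I := by
        intro h
        have := (land_eq_zero_iff.1 hb) i hci
        rw [(hI i).2 h] at this; exact absurd this (by simp)
      have h1 := hs (2 ^ i, f) hf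
      have h2 : Nat.beq (Nat.land inc f) 0 = true := by
        rw [land_eq_zero_iff]
        intro j hj
        have hjI := (hI j).1 hj
        exact hconf j (hIQ hjI) (by rintro rfl; exact hiI hjI)
      simp only [h2, cond_true] at h1
      obtain ⟨m, J, k1, k2, k3, k4, k5⟩ := ih (inc ||| 2 ^ i) (insert i I) (by
          intro j
          rw [Nat.testBit_or, Bool.or_eq_true, hI j, Nat.testBit_two_pow, Finset.mem_insert]
          constructor
          · rintro (h | h)
            · exact Or.inr h
            · left
              have : i = j := by simpa using h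
              exact this.symm
          · rintro (h | h)
            · right; simp [h]
            · exact Or.inl h) (by
          intro j hj
          rcases Finset.mem_insert.1 hj with rfl | hj
          · exact hiQ
          · exact hIQ hj) (fun c' hc' => hc c' (List.mem_cons_of_mem _ hc')) h1
      refine ⟨m, J, k1, fun x hx => k2 (Finset.mem_insert_of_mem hx), k3, k4, ?_⟩
      intro c' hc'
      rcases List.mem_cons.1 hc' with rfl | hc'
      · exact ⟨i, k2 (Finset.mem_insert_self _ _), hci⟩
      · exact k5 c' hc'

end Pool.Agent.D0H4.Holes
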